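import Pool.Agent.H910Z.TE.Comp

set_option autoImplicit false

namespace Pool.Agent.Results.MP_16bc4e_al.ADecidable

/-- One primitive recursive function decides, given the rank `n` and two words `u`, `v` in the
letters of the free basis of `F_n`, whether the images of `u` and `v` have the same cyclic length
(least word length of a conjugate) under every automorphism of `F_n`. -/
theorem result : ∃ f : ℕ × List (ℕ × Bool) × List (ℕ × Bool) → Bool, Primrec f ∧
    ∀ (n : ℕ) (u v : List (Fin n × Bool)),
      f (n, u.map (fun a => (a.1.val, a.2)), v.map (fun a => (a.1.val, a.2))) = true ↔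
      ∀ φ : MulAut (FreeGroup (Fin n)),
        (⨅ h : FreeGroup (Fin n), (h * φ (FreeGroup.mk u) * h⁻¹).norm) =
          ⨅ h : FreeGroup (Fin n), (h * φ (FreeGroup.mk v) * h⁻¹).norm :=
  Pool.Agent.H910Z.TE.decidable_te

end Pool.Agent.Results.MP_16bc4e_al.ADecidable
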